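import Pool.Agent.L0h58.SP.Orc
import Pool.Agent.L0h58.EE.Meas

/-! # Almost all data are good -/

set_option autoImplicit false

namespace Pool.Agent.L0h58.SP

open Pool.Agent.L0h34.OM Pool.Agent.L0h34.RO Pool.Agent.L0h58.EE Function MeasureTheory
open scoped ENNReal

/-- The bound for the number of the correct guesses. -/
noncomputable def gbH (n m : ℕ) : ℝ := 2 ^ n / 2 + 2 * √(n * 2 ^ m * 2 ^ n)

/-- The program `u` with the advice `a` guesses many hidden bits. -/
def PH (h : ℕ → ℕ) (n : ℕ) (u : Prog) (m : ℕ) (a : List Bool) : Set Oracle :=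
  {R | gbH n m < ((Finset.univ.filter fun x : List.Vector Bool n =>
    hbH h R x.1 = gs (orcH h R) u (init2 x.1 a) (2 ^ h m)).card : ℝ)}

theorem measurableSet_PH {h : ℕ → ℕ} (hh : StrictMono h) (n : ℕ) (u : Prog) (m : ℕ)
    (a : List Bool) : MeasurableSet (PH h n u m a) := by
  refine measurable_of_local (max (2 ^ h m) (n + h n + 1)) fun R R' hA hR => ?_
  unfold PH at hR ⊢
  simp only [Set.mem_ofPred_eq] at hR ⊢
  have h1 : ∀ x : List.Vector Bool n, hbH h R' x.1 = hbH h R x.1 := fun x =>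
    hbH_local (hA.mono (le_max_right _ _)) (by rw [x.2])
  have h2 : ∀ x : List.Vector Bool n, gs (orcH h R') u (init2 x.1 a) (2 ^ h m) =
      gs (orcH h R) u (init2 x.1 a) (2 ^ h m) := fun x =>
    gs_congr (orcH_local hh (hA.mono (le_max_left _ _))) u _
  simp only [h1, h2]
  exact hR

theorem card_translatesH {h : ℕ → ℕ} (hh : StrictMono h) {n m : ℕ} (hmn : m ≤ n) (u : Prog)
    (a : List Bool) (R : Oracle)
    (s : Finset (TabH h n)) (hs : ∀ k ∈ s, xr (DH k) R ∈ PH h n u m a) :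
    (s.card : ℝ) ≤ 2 ^ (CH h m).card * (2 ^ (2 ^ n) * Real.exp (-(8 * n * 2 ^ m)) *
      ((2 ^ h n) ^ (2 ^ n) * Real.exp (2 ^ m))) := by
  classical
  obtain ⟨N, hN⟩ : ∃ N, 2 ^ n = N := ⟨_, rfl⟩
  obtain ⟨M, hM⟩ : ∃ M, 2 ^ h n = M := ⟨_, rfl⟩
  obtain ⟨T, hT⟩ : ∃ T, 2 ^ h m = T := ⟨_, rfl⟩
  obtain ⟨q, hq⟩ : ∃ q : ℕ, 2 ^ m = q := ⟨_, rfl⟩
  have hN0 : 0 < N := by rw [← hN]; positivity
  have hM0 : 0 < M := by rw [← hM]; positivity
  have hNr : (0 : ℝ) < N := by exact_mod_cast hN0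
  have hMr : (0 : ℝ) < M := by exact_mod_cast hM0
  have hX : Fintype.card (List.Vector Bool n) = N := by rw [card_vector, Fintype.card_bool, hN]
  have hY : Fintype.card (Fin (h n) → Bool) = M := by
    rw [Fintype.card_fun, Fintype.card_bool, Fintype.card_fin, hM]
  have hNr' : (2 : ℝ) ^ n = N := by rw [← hN]; push_cast; rfl
  have hMr' : (2 : ℝ) ^ h n = M := by rw [← hM]; push_cast; rfl
  have hqr' : (2 : ℝ) ^ m = q := by rw [← hq]; push_cast; rfl
  have hNT : N * T ≤ q * M := by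
    rw [← hN, ← hM, ← hT, ← hq, ← pow_add, ← pow_add]
    refine Nat.pow_le_pow_right (by norm_num) ?_
    have h1 : h m + (n - m) ≤ h (m + (n - m)) := by
      have h2 : ∀ d, h m + d ≤ h (m + d) := by
        intro d
        induction d with
        | zero => exact le_rfl
        | succ d ih =>
          have := hh (show m + d < m + (d + 1) by omega)
          omega
      exact h2 _
    rw [show m + (n - m) = n by omega] at h1
    omega
  have hNTr : (N : ℝ) * T / M ≤ q := by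
    rw [div_le_iff₀ hMr]
    exact_mod_cast hNT
  set D : ℝ := 2 * √(n * q * N) with hD
  have hD0 : 0 ≤ D := by positivity
  have hD2 : D ^ 2 = 4 * (n * q * N) := by
    rw [hD, mul_pow, Real.sq_sqrt (by positivity)]; ring
  have key : ∀ v : Finset (List Bool),
      ({k : TabH h n | (N : ℝ) / 2 + D < ((Finset.univ.filter fun x : List.Vector Bool n =>
        xor (k x).2 (hbH h R x.1) = gs (gvH h v (xr (DH k) R)) u (init2 x.1 a) T).card : ℝ)}.ncard :
          ℝ)
      ≤ 2 ^ N * Real.exp (-(8 * n * q)) * ((M : ℝ) ^ N * Real.exp q) := by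
    intro v
    have h1 := card_bad (qp_gvH hh (n := n) v R) u (fun x => init2 x.1 a) T
      (fun x => hbH h R x.1) hD0 (by rw [hX]; exact hN0) (by rw [hY]; exact hM0)
    rw [hX, hY] at h1
    rw [hD2, show 2 * (4 * ((n : ℝ) * q * N)) / N = 8 * n * q by field_simp; ring] at h1
    refine h1.trans ?_
    gcongr
  have hsub : (s : Set (TabH h n)) ⊆ ⋃ v ∈ (CH h m).powerset,
      {k : TabH h n | (N : ℝ) / 2 + D < ((Finset.univ.filter fun x : List.Vector Bool n =>
        xor (k x).2 (hbH h R x.1) = gs (gvH h v (xr (DH k) R)) u (init2 x.1 a) T).card : ℝ)} := by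
    intro k hk
    have h1 := hs k hk
    unfold PH gbH at h1
    simp only [Set.mem_ofPred_eq] at h1
    rw [hNr', hqr', hT] at h1
    simp only [Set.mem_iUnion]
    refine ⟨vwH h (xr (DH k) R) m, Finset.mem_powerset.2 (Finset.filter_subset _ _), ?_⟩
    simp only [Set.mem_ofPred_eq]
    have h2 : ∀ x : List.Vector Bool n, gs (gvH h (vwH h (xr (DH k) R) m) (xr (DH k) R)) u
        (init2 x.1 a) T = gs (orcH h (xr (DH k) R)) u (init2 x.1 a) T := fun x =>
      gs_congr (fun q hq => gvH_vwH hh (by rw [hT]; exact hq)) u _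
    simp only [h2, ← hbH_xr]
    exact h1
  calc (s.card : ℝ) = ((s : Set (TabH h n)).ncard : ℝ) := by rw [Set.ncard_coe_finset]
    _ ≤ ((⋃ v ∈ (CH h m).powerset,
      {k : TabH h n | (N : ℝ) / 2 + D < ((Finset.univ.filter fun x : List.Vector Bool n =>
        xor (k x).2 (hbH h R x.1) = gs (gvH h v (xr (DH k) R)) u (init2 x.1 a) T).card : ℝ)}).ncard :
          ℝ) := by
        exact_mod_cast Set.ncard_le_ncard hsub (Set.toFinite _)
    _ ≤ ∑ v ∈ (CH h m).powerset, ({k : TabH h n | (N : ℝ) / 2 + D <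
        ((Finset.univ.filter fun x : List.Vector Bool n =>
        xor (k x).2 (hbH h R x.1) = gs (gvH h v (xr (DH k) R)) u (init2 x.1 a) T).card :
          ℝ)}.ncard : ℝ) := by
        exact_mod_cast Finset.set_ncard_biUnion_le _ _
    _ ≤ ∑ _v ∈ (CH h m).powerset, 2 ^ N * Real.exp (-(8 * n * q)) * ((M : ℝ) ^ N * Real.exp q) :=
        Finset.sum_le_sum fun v _ => key v
    _ = _ := by
        rw [Finset.sum_const, Finset.card_powerset, nsmul_eq_mul, hMr', hqr', hN]
        push_cast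
        rfl

theorem measure_PH {h : ℕ → ℕ} (hh : StrictMono h) {n m : ℕ} (hmn : m ≤ n) (u : Prog)
    (a : List Bool) : randomOracle (PH h n u m a) ≤
      ENNReal.ofReal (2 ^ (CH h m).card * Real.exp (2 ^ m - 8 * n * 2 ^ m)) := by
  classical
  obtain ⟨N, hN⟩ : ∃ N, 2 ^ n = N := ⟨_, rfl⟩
  obtain ⟨M, hM⟩ : ∃ M, 2 ^ h n = M := ⟨_, rfl⟩
  have hN0 : 0 < N := by rw [← hN]; positivity
  have hM0 : 0 < M := by rw [← hM]; positivity
  have hMr' : (2 : ℝ) ^ h n = M := by rw [← hM]; push_cast; rfl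
  set B : ℝ := 2 ^ (CH h m).card * (2 ^ (2 ^ n) * Real.exp (-(8 * n * 2 ^ m)) *
      ((2 ^ h n) ^ (2 ^ n) * Real.exp (2 ^ m))) with hB
  have h1 := measure_le_of_translates (K := TabH h n) (fun k => DH k)
    (measurableSet_PH hh n u m a) ⌊B⌋₊
    (fun R s hs => Nat.le_floor (card_translatesH hh hmn u a R s hs))
  have hK : Fintype.card (TabH h n) = (M * 2) ^ N := by
    rw [Fintype.card_fun, Fintype.card_prod, Fintype.card_fun, Fintype.card_bool,
      Fintype.card_fin, card_vector, Fintype.card_bool, hN, hM]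
  rw [hK] at h1
  have hB0 : 0 ≤ B := by rw [hB]; positivity
  have h2 : ((⌊B⌋₊ : ℕ) : ℝ≥0∞) ≤ ENNReal.ofReal B := by
    rw [← ENNReal.ofReal_natCast]
    exact ENNReal.ofReal_le_ofReal (Nat.floor_le hB0)
  have h3 : B = (((M * 2) ^ N : ℕ) : ℝ) *
      (2 ^ (CH h m).card * Real.exp (2 ^ m - 8 * n * 2 ^ m)) := by
    rw [hB, hN, hMr']
    push_cast
    rw [sub_eq_add_neg, Real.exp_add, mul_pow]
    ring
  have h4 : ((((M * 2) ^ N : ℕ)) : ℝ≥0∞) * randomOracle (PH h n u m a) ≤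
      (((M * 2) ^ N : ℕ) : ℝ≥0∞) *
        ENNReal.ofReal (2 ^ (CH h m).card * Real.exp (2 ^ m - 8 * n * 2 ^ m)) := by
    refine (h1.trans h2).trans (le_of_eq ?_)
    rw [h3, ENNReal.ofReal_mul (by positivity), ENNReal.ofReal_natCast]
  have h0 : (((M * 2) ^ N : ℕ) : ℝ≥0∞) ≠ 0 := by
    have : (M * 2) ^ N ≠ 0 := by positivity
    exact_mod_cast this
  exact (ENNReal.mul_le_mul_iff_right h0 (ENNReal.natCast_ne_top _)).1 h4

theorem term_boundH (h : ℕ → ℕ) {n m : ℕ} (hn : 1 ≤ n) (hmn : m ≤ n) :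
    (2 : ℝ) ^ (2 ^ m + 1) * (2 ^ (CH h m).card * Real.exp (2 ^ m - 8 * n * 2 ^ m)) ≤
      Real.exp (3 - 6 * n) := by
  have h1 := card_CH h m
  have h3 : (CH h m).card ≤ 2 * n * 2 ^ m :=
    h1.trans (Nat.mul_le_mul_right _ (Nat.mul_le_mul_left _ (by omega)))
  have h4 : (2 : ℝ) ^ (CH h m).card ≤ Real.exp (2 * n * 2 ^ m) := by
    calc (2 : ℝ) ^ (CH h m).card ≤ 2 ^ (2 * n * 2 ^ m) :=
          pow_le_pow_right₀ (by norm_num) h3
      _ ≤ _ := by
          have := two_pow_le_exp (2 * n * 2 ^ m)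
          push_cast at this
          exact this
  have h5 : (2 : ℝ) ^ (2 ^ m + 1) ≤ Real.exp (2 ^ m + 1) := by
    have := two_pow_le_exp (2 ^ m + 1)
    push_cast at this
    exact this
  calc _ ≤ Real.exp (2 ^ m + 1) * (Real.exp (2 * n * 2 ^ m) *
        Real.exp (2 ^ m - 8 * n * 2 ^ m)) := by gcongr
    _ = Real.exp (2 ^ m + 1 + (2 * n * 2 ^ m + (2 ^ m - 8 * n * 2 ^ m))) := by
        rw [← Real.exp_add, ← Real.exp_add]
    _ ≤ _ := by
        refine Real.exp_le_exp.2 ?_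
        have hn' : (1 : ℝ) ≤ n := by exact_mod_cast hn
        have hm' : (1 : ℝ) ≤ 2 ^ m := one_le_pow₀ (by norm_num)
        nlinarith

/-- Some program with a small number guesses many hidden bits of the strings of length `n`. -/
def BH (h : ℕ → ℕ) (n : ℕ) : Set Oracle :=
  ⋃ j ∈ Finset.range (n + 1), ⋃ m ∈ Finset.range (n + 1), ⋃ a ∈ strsLe (2 ^ m),
    PH h n (en j) m a

theorem measure_BH {h : ℕ → ℕ} (hh : StrictMono h) {n : ℕ} (hn : 1 ≤ n) :
    randomOracle (BH h n) ≤ ENNReal.ofReal (Real.exp (3 - 4 * n)) := by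
  have h1 : ∀ j, ∀ m ∈ Finset.range (n + 1),
      randomOracle (⋃ a ∈ strsLe (2 ^ m), PH h n (en j) m a) ≤
      ENNReal.ofReal (Real.exp (3 - 6 * n)) := by
    intro j m hm
    rw [Finset.mem_range] at hm
    refine (measure_biUnion_finset_le _ _).trans ?_
    refine (Finset.sum_le_sum fun a _ => measure_PH hh (show m ≤ n by omega) (en j) a).trans ?_
    rw [Finset.sum_const, nsmul_eq_mul]
    have h2 : ((strsLe (2 ^ m)).card : ℝ≥0∞) ≤ ENNReal.ofReal (2 ^ (2 ^ m + 1)) := by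
      rw [← ENNReal.ofReal_natCast]
      refine ENNReal.ofReal_le_ofReal ?_
      exact_mod_cast card_strsLe (2 ^ m)
    calc _ ≤ ENNReal.ofReal (2 ^ (2 ^ m + 1)) *
          ENNReal.ofReal (2 ^ (CH h m).card * Real.exp (2 ^ m - 8 * n * 2 ^ m)) := by gcongr
      _ = ENNReal.ofReal (2 ^ (2 ^ m + 1) *
          (2 ^ (CH h m).card * Real.exp (2 ^ m - 8 * n * 2 ^ m))) := by
          rw [ENNReal.ofReal_mul (p := 2 ^ (2 ^ m + 1)) (by positivity)]
      _ ≤ _ := ENNReal.ofReal_le_ofReal (term_boundH h hn (by omega))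
  have h0 : ((n + 1 : ℕ) : ℝ≥0∞) ≤ ENNReal.ofReal (Real.exp n) := by
    rw [← ENNReal.ofReal_natCast]
    refine ENNReal.ofReal_le_ofReal ?_
    push_cast
    exact Real.add_one_le_exp (n : ℝ)
  have h2 : ∀ j, randomOracle (⋃ m ∈ Finset.range (n + 1), ⋃ a ∈ strsLe (2 ^ m),
      PH h n (en j) m a) ≤ ENNReal.ofReal (Real.exp (3 - 5 * n)) := by
    intro j
    refine (measure_biUnion_finset_le _ _).trans ?_
    refine (Finset.sum_le_sum fun m hm => h1 j m hm).trans ?_
    rw [Finset.sum_const, nsmul_eq_mul, Finset.card_range]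
    calc _ ≤ ENNReal.ofReal (Real.exp n) * ENNReal.ofReal (Real.exp (3 - 6 * n)) := by gcongr
      _ = _ := by
          rw [← ENNReal.ofReal_mul (by positivity), ← Real.exp_add]
          congr 2
          ring
  unfold BH
  refine (measure_biUnion_finset_le _ _).trans ?_
  refine (Finset.sum_le_sum fun j _ => h2 j).trans ?_
  rw [Finset.sum_const, nsmul_eq_mul, Finset.card_range]
  calc _ ≤ ENNReal.ofReal (Real.exp n) * ENNReal.ofReal (Real.exp (3 - 5 * n)) := by gcongr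
    _ = _ := by
        rw [← ENNReal.ofReal_mul (by positivity), ← Real.exp_add]
        congr 2
        ring

theorem exists_goodH {h : ℕ → ℕ} (hh : StrictMono h) :
    ∃ R : Oracle, ∃ n₀, ∀ n ≥ n₀, R ∉ BH h n := by
  have h1 : ∑' i, randomOracle {R | R ∈ BH h (i + 1)} ≠ ∞ := by
    have h2 : Summable fun i : ℕ => Real.exp (-1 + i * (-4)) := by
      simp only [Real.exp_add]
      exact (Real.summable_exp_nat_mul_iff.2 (by norm_num)).mul_left _
    refine ne_top_of_le_ne_top h2.tsum_ofReal_ne_top (ENNReal.tsum_le_tsum fun i => ?_)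
    refine (measure_BH hh (by omega)).trans (ENNReal.ofReal_le_ofReal (Real.exp_le_exp.2 ?_))
    push_cast
    linarith
  have h3 := measure_setOfPred_frequently_eq_zero h1
  have h4 : ∃ R : Oracle, ¬ ∃ᶠ i in Filter.atTop, R ∈ BH h (i + 1) := by
    by_contra hcon
    push Not at hcon
    have : {R : Oracle | ∃ᶠ i in Filter.atTop, R ∈ BH h (i + 1)} = Set.univ :=
      Set.eq_univ_of_forall hcon
    rw [this, measure_univ] at h3
    exact one_ne_zero h3
  obtain ⟨R, hR⟩ := h4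
  rw [Filter.not_frequently, Filter.eventually_atTop] at hR
  obtain ⟨n₀, h5⟩ := hR
  refine ⟨R, n₀ + 1, fun n hn => ?_⟩
  have := h5 (n - 1) (by omega)
  rwa [show n - 1 + 1 = n by omega] at this

end Pool.Agent.L0h58.SP
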