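import Pool.Agent.L0h58.SP.Orc

/-! # The programs -/

set_option autoImplicit false

namespace Pool.Agent.L0h58.SP

open Pool.Agent.L0h34.OM Pool.Agent.L0h34.RO Pool.Agent.L0h58.EE Function

theorem init2_eq10 (x w : List Bool) : init2 x w = st [x, w, [], [], [], [], [], [], [], []] := by
  rw [init2_eq]
  exact st_zeros [x, w, [], [], [], [], [], [], [], []] 10

theorem init_eq10 (x : List Bool) : init x = st [x, [], [], [], [], [], [], [], [], []] := by
  rw [init_eq20]
  exact st_zeros [x, [], [], [], [], [], [], [], [], []] 10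

theorem mark_succ (n m : ℕ) : mark n m ++ [true] = mark n (m + 1) := by
  simp [mark, ones, List.replicate_succ']

theorem length_mark (n m : ℕ) : (mark n m).length = n + m + 3 := by
  simp [mark]; omega

/-- The answers for the marks are right. -/
def MarkOK (h : ℕ → ℕ) (G : Oracle) : Prop := ∀ n m, G (mark n m) = decide (m < h n)

section

variable {G : Oracle} {X W S F L Q B D V E : List Bool}

/-- One round of the reading of the witness. -/
def vbody : Prog := .seq (.ask 8 6) (.take 6 .nop (.clear 7)
  (.seq (.put 8 true) (.take 1 (.put 3 true) (.put 2 false) (.put 2 true))))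

theorem go_vloop {h : ℕ → ℕ} (hG : MarkOK h G) (n : ℕ) (r : ℕ) : ∀ (m f : ℕ) (W S : List Bool),
    m + r = h n → Go G (.loop 7 vbody)
      (st [X, W, S, ones f, L, Q, [], [true], mark n m, D])
      ((r + 1) * (n + h n + 20))
      (st [X, W.drop r, S ++ W.take r, ones (f + (r - W.length)), L, Q, [], [],
        mark n (h n), D]) := by
  induction r with
  | zero =>
    intro m f W S hm
    obtain rfl : m = h n := by omega
    have g1 : Go G (.ask 8 6) (st [X, W, S, ones f, L, Q, [], [true], mark n (h n), D])
        ((mark n (h n)).length + 1)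
        (st [X, W, S, ones f, L, Q, [G (mark n (h n))], [true], mark n (h n), D]) :=
      Go.ask (by simp)
    rw [hG, length_mark] at g1
    simp only [lt_irrefl, decide_false] at g1
    have g2 : Go G (.clear 7) (st [X, W, S, ones f, L, Q, [], [true], mark n (h n), D])
        (3 * 1 + 1) (st [X, W, S, ones f, L, Q, [], [], mark n (h n), D]) :=
      Go.clear (by simp)
    have g3 : Go G vbody (st [X, W, S, ones f, L, Q, [], [true], mark n (h n), D])
        (n + h n + 3 + 1 + (3 * 1 + 1 + 1))
        (st [X, W, S, ones f, L, Q, [], [], mark n (h n), D]) :=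
      g1.seq (Go.take_false (by simp) rfl g2)
    simp only [List.drop_zero, List.take_zero, List.append_nil, Nat.zero_sub, Nat.add_zero,
      Nat.zero_add]
    exact (Go.loop_cons (by simp [st]) g3 (Go.loop_nil rfl)).mono (by omega)
  | succ r ih =>
    intro m f W S hm
    have g1 : Go G (.ask 8 6) (st [X, W, S, ones f, L, Q, [], [true], mark n m, D])
        ((mark n m).length + 1)
        (st [X, W, S, ones f, L, Q, [G (mark n m)], [true], mark n m, D]) :=
      Go.ask (by simp)
    rw [hG, length_mark, decide_eq_true (show m < h n by omega)] at g1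
    have g2 : Go G (.put 8 true) (st [X, W, S, ones f, L, Q, [], [true], mark n m, D])
        1 (st [X, W, S, ones f, L, Q, [], [true], mark n m ++ [true], D]) :=
      Go.put true (by simp)
    rw [mark_succ] at g2
    rcases W with _ | ⟨e, W⟩
    · have g3 : Go G (.put 3 true) (st [X, [], S, ones f, L, Q, [], [true], mark n (m + 1), D]) 1
          (st [X, [], S, ones (f + 1), L, Q, [], [true], mark n (m + 1), D]) := by
        rw [← ones_add f 1]
        exact Go.put true (by simp)
      have g4 : Go G vbody (st [X, [], S, ones f, L, Q, [], [true], mark n m, D])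
          (n + m + 3 + 1 + (1 + (1 + 1) + 1))
          (st [X, [], S, ones (f + 1), L, Q, [], [true], mark n (m + 1), D]) :=
        g1.seq (Go.take_true (by simp) rfl (g2.seq (Go.take_nil rfl g3)))
      have g5 := ih (m + 1) (f + 1) [] S (by omega)
      simp only [List.drop_nil, List.take_nil, List.append_nil, List.length_nil,
        Nat.sub_zero] at g5 ⊢
      rw [show f + 1 + r = f + (r + 1) by ring] at g5
      refine (Go.loop_cons (by simp [st]) g4 g5).mono ?_
      have : (r + 1 + 1) * (n + h n + 20) = (r + 1) * (n + h n + 20) + (n + h n + 20) := by ring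
      rw [this]
      omega
    · have g3 : Go G (.take 1 (.put 3 true) (.put 2 false) (.put 2 true))
          (st [X, e :: W, S, ones f, L, Q, [], [true], mark n (m + 1), D]) 2
          (st [X, W, S ++ [e], ones f, L, Q, [], [true], mark n (m + 1), D]) := by
        rcases e with - | -
        · exact Go.take_false (by simp) rfl (Go.put false (by simp))
        · exact Go.take_true (by simp) rfl (Go.put true (by simp))
      have g4 : Go G vbody (st [X, e :: W, S, ones f, L, Q, [], [true], mark n m, D])
          (n + m + 3 + 1 + (1 + 2 + 1))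
          (st [X, W, S ++ [e], ones f, L, Q, [], [true], mark n (m + 1), D]) :=
        g1.seq (Go.take_true (by simp) rfl (g2.seq g3))
      have g5 := ih (m + 1) f W (S ++ [e]) (by omega)
      simp only [List.drop_succ_cons, List.take_succ_cons, List.length_cons,
        Nat.add_sub_add_right] at g5 ⊢
      rw [show S ++ e :: List.take r W = S ++ [e] ++ List.take r W by simp]
      refine (Go.loop_cons (by simp [st]) g4 g5).mono ?_
      have : (r + 1 + 1) * (n + h n + 20) = (r + 1) * (n + h n + 20) + (n + h n + 20) := by ring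
      rw [this]
      omega

theorem go_ones8 (l : List Bool) : ∀ V : List Bool,
    Go G (.each 4 (.put 8 true) (.put 8 true)) (st [X, W, S, F, l, Q, B, E, V, D])
      (3 * l.length + 1) (st [X, W, S, F, [], Q, B, E, V ++ ones l.length, D]) := by
  induction l with
  | nil =>
    intro V
    simp only [List.length_nil, ones, List.replicate_zero, List.append_nil, Nat.mul_zero,
      Nat.zero_add]
    exact Go.each_nil rfl
  | cons b l ih =>
    intro V
    have h1 : Go G (.put 8 true) (st [X, W, S, F, l, Q, B, E, V, D]) 1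
      (st [X, W, S, F, l, Q, B, E, V ++ [true], D]) := Go.put true (by simp)
    have h2 := ih (V ++ [true])
    rw [show V ++ [true] ++ ones l.length = V ++ ones (b :: l).length by
      simp [ones, List.replicate_succ]] at h2
    exact (Go.each_cons b (by simp) rfl h1 h2).mono (by simp only [List.length_cons]; omega)

/-- The verifier for the strings with the hidden bit `b`. -/
def verH (b : Bool) : Prog := .seq (.put 8 true) (.seq (.put 8 false) (.seq (.copy 0 4)
  (.seq (.each 4 (.put 8 true) (.put 8 true)) (.seq (.put 8 false) (.seq (.put 7 true)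
  (.seq (.loop 7 vbody) (.seq (.put 5 false) (.seq (.app 0 5 9) (.seq (.app 2 5 9)
  (.seq (.put 5 b) (.seq (.ask 5 6) (.seq (.clear 0)
  (.take 3 (.take 1 (.take 6 .nop .nop (.put 0 true)) .nop .nop) .nop .nop)))))))))))))

theorem go_verH {h : ℕ → ℕ} (hG : MarkOK h G) (b : Bool) (x w : List Bool) : ∃ τ : Store,
    Go G (verH b) (init2 x w)
      ((h x.length + 1) * (x.length + h x.length + 20) + 20 * x.length + 10 * h x.length + 60) τ ∧
    (τ 0 ≠ [] ↔ w.length = h x.length ∧ G (false :: (x ++ (w ++ [b]))) = true) := by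
  rw [init2_eq10]
  obtain ⟨H, hH⟩ : ∃ H, h x.length = H := ⟨_, rfl⟩
  obtain ⟨q, hq⟩ : ∃ q, false :: (x ++ w.take H ++ [b]) = q := ⟨_, rfl⟩
  have hql : q.length ≤ x.length + H + 2 := by
    rw [← hq]
    simp only [List.length_cons, List.length_append, List.length_take, List.length_nil]
    omega
  have g1 : Go G (.put 8 true) (st [x, w, [], [], [], [], [], [], [], []]) 1
      (st [x, w, [], [], [], [], [], [], [true], []]) := Go.put true (by simp)
  have g2 : Go G (.put 8 false) (st [x, w, [], [], [], [], [], [], [true], []]) 1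
      (st [x, w, [], [], [], [], [], [], [true, false], []]) := Go.put false (by simp)
  have g3 : Go G (.copy 0 4) (st [x, w, [], [], [], [], [], [], [true, false], []]) (x.length + 1)
      (st [x, w, [], [], x, [], [], [], [true, false], []]) := Go.copy (by simp)
  have g4 : Go G (.each 4 (.put 8 true) (.put 8 true))
      (st [x, w, [], [], x, [], [], [], [true, false], []]) (3 * x.length + 1)
      (st [x, w, [], [], [], [], [], [], [true, false] ++ ones x.length, []]) := go_ones8 x _
  have g5 : Go G (.put 8 false)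
      (st [x, w, [], [], [], [], [], [], [true, false] ++ ones x.length, []]) 1
      (st [x, w, [], [], [], [], [], [], [true, false] ++ ones x.length ++ [false], []]) :=
    Go.put false (by simp)
  have e0 : [true, false] ++ ones x.length ++ [false] = mark x.length 0 := by simp [mark, ones]
  rw [e0] at g5
  have g6 : Go G (.put 7 true) (st [x, w, [], [], [], [], [], [], mark x.length 0, []]) 1
      (st [x, w, [], ones 0, [], [], [], [true], mark x.length 0, []]) := Go.put true (by simp)
  have g7 := go_vloop (G := G) (X := x) (L := []) (Q := []) (D := []) hG x.length (h x.length)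
    0 0 w [] (by omega)
  rw [hH, Nat.zero_add, List.nil_append] at g7
  obtain ⟨W', hW'⟩ : ∃ W', w.drop H = W' := ⟨_, rfl⟩
  obtain ⟨S', hS'⟩ : ∃ S', w.take H = S' := ⟨_, rfl⟩
  obtain ⟨m, hm⟩ : ∃ m, H - w.length = m := ⟨_, rfl⟩
  obtain ⟨M, hM⟩ : ∃ M, mark x.length H = M := ⟨_, rfl⟩
  rw [hW', hS', hm, hM] at g7
  rw [hS'] at hq
  have hSl : S'.length ≤ H := by rw [← hS', List.length_take]; omega
  have g8 : Go G (.put 5 false) (st [x, W', S', ones m, [], [], [], [], M, []]) 1
      (st [x, W', S', ones m, [], [false], [], [], M, []]) := Go.put false (by simp)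
  have g9 : Go G (.app 0 5 9) (st [x, W', S', ones m, [], [false], [], [], M, []])
      (4 * x.length + 2)
      (st [x, W', S', ones m, [], [false] ++ x, [], [], M, []]) :=
    Go.app (by simp) (by simp) (by simp)
  have g10 : Go G (.app 2 5 9) (st [x, W', S', ones m, [], [false] ++ x, [], [], M, []])
      (4 * S'.length + 2)
      (st [x, W', S', ones m, [], [false] ++ x ++ S', [], [], M, []]) :=
    Go.app (by simp) (by simp) (by simp)
  have g11 : Go G (.put 5 b) (st [x, W', S', ones m, [], [false] ++ x ++ S', [], [], M, []]) 1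
      (st [x, W', S', ones m, [], [false] ++ x ++ S' ++ [b], [], [], M, []]) :=
    Go.put b (by simp)
  have e1 : [false] ++ x ++ S' ++ [b] = q := by rw [← hq]; simp
  rw [e1] at g11
  have g12 : Go G (.ask 5 6) (st [x, W', S', ones m, [], q, [], [], M, []]) (q.length + 1)
      (st [x, W', S', ones m, [], q, [G q], [], M, []]) := Go.ask (by simp)
  have g13 : Go G (.clear 0) (st [x, W', S', ones m, [], q, [G q], [], M, []])
      (3 * x.length + 1)
      (st [[], W', S', ones m, [], q, [G q], [], M, []]) := Go.clear (by simp)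
  have g14 : ∃ τ, Go G (.take 3 (.take 1 (.take 6 .nop .nop (.put 0 true)) .nop .nop) .nop .nop)
      (st [[], W', S', ones m, [], q, [G q], [], M, []]) 4 τ ∧
      (τ 0 ≠ [] ↔ m = 0 ∧ W' = [] ∧ G q = true) := by
    rcases m with _ | m
    · rcases W' with _ | ⟨e, W'⟩
      · cases hG : G q
        · exact ⟨_, Go.take_nil rfl (Go.take_nil rfl (Go.take_false (by simp) rfl Go.nop)),
            by simp [st]⟩
        · exact ⟨_, Go.take_nil rfl (Go.take_nil rfl (Go.take_true (by simp) rfl
            (Go.put true (by simp)))), by simp [st]⟩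
      · rcases e with - | -
        · exact ⟨_, (Go.take_nil rfl (Go.take_false (by simp) rfl Go.nop)).mono (by omega),
            by simp [st]⟩
        · exact ⟨_, (Go.take_nil rfl (Go.take_true (by simp) rfl Go.nop)).mono (by omega),
            by simp [st]⟩
    · exact ⟨_, (Go.take_true (by simp) rfl Go.nop).mono (by omega), by simp [st]⟩
  obtain ⟨τ, g14, h14⟩ := g14
  rw [hH]
  refine ⟨τ, (g1.seq (g2.seq (g3.seq (g4.seq (g5.seq (g6.seq (g7.seq (g8.seq (g9.seq (g10.seq
    (g11.seq (g12.seq (g13.seq g14))))))))))))).mono ?_, ?_⟩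
  · clear g1 g2 g3 g4 g5 g6 g7 g8 g9 g10 g11 g12 g13 g14 h14
    obtain ⟨Z, hZ⟩ : ∃ Z, (H + 1) * (x.length + H + 20) = Z := ⟨_, rfl⟩
    rw [hZ]
    omega
  rw [h14]
  constructor
  · rintro ⟨h1, h2, h3⟩
    have h4 : w.length = H := by
      rw [← hW', List.drop_eq_nil_iff] at h2
      omega
    refine ⟨h4, ?_⟩
    rw [← hS', List.take_of_length_le (by omega)] at hq
    rw [← h3, ← hq]
    simp
  · rintro ⟨h1, h2⟩
    refine ⟨by omega, by rw [← hW']; exact List.drop_eq_nil_of_le (by omega), ?_⟩
    rw [← hS', List.take_of_length_le (by omega)] at hq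
    rw [← h2, ← hq]
    simp

/-! ### The simulation of space -/

theorem go_put2 (j i : ℕ) :
    Go G (iter (.put 2 true) j) (st [X, W, ones i, F, L, Q, B, E, V, D]) (j + 1)
      (st [X, W, ones (i + j), F, L, Q, B, E, V, D]) := by
  induction j with
  | zero => exact Go.nop
  | succ j ih =>
    have h1 : Go G (.put 2 true) (st [X, W, ones (i + j), F, L, Q, B, E, V, D]) 1
      (st [X, W, ones (i + j) ++ ones 1, F, L, Q, B, E, V, D]) := Go.put true (by simp)
    rw [ones_add] at h1
    exact ih.seq h1

theorem go_put1' (j : ℕ) :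
    Go G (iter (.put 1 true) j) (st [X, W, S, F, L, Q, B, E, V, D]) (j + 1)
      (st [X, W ++ ones j, S, F, L, Q, B, E, V, D]) := by
  induction j with
  | zero => simp only [ones, List.replicate_zero, List.append_nil]; exact Go.nop
  | succ j ih =>
    have h1 : Go G (.put 1 true) (st [X, W ++ ones j, S, F, L, Q, B, E, V, D]) 1
      (st [X, W ++ ones j ++ ones 1, S, F, L, Q, B, E, V, D]) := Go.put true (by simp)
    rw [List.append_assoc, ones_add] at h1
    exact ih.seq h1

theorem go_mulc (c : ℕ) (l : List Bool) (i : ℕ) :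
    Go G (.each 4 (iter (.put 2 true) c) (iter (.put 2 true) c))
      (st [X, W, ones i, F, l, Q, B, E, V, D])
      (l.length * (c + 3) + 1)
      (st [X, W, ones (i + c * l.length), F, [], Q, B, E, V, D]) := by
  induction l generalizing i with
  | nil =>
    simp only [List.length_nil, Nat.zero_mul, Nat.mul_zero, Nat.add_zero, Nat.zero_add]
    exact Go.each_nil rfl
  | cons b l ih =>
    have h1 := go_put2 (G := G) (X := X) (W := W) (F := F) (L := l) (Q := Q) (B := B) (E := E)
      (V := V) (D := D) c i
    have h2 := ih (i + c)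
    have e1 : i + c + c * l.length = i + c * (b :: l).length := by
      simp only [List.length_cons]; ring
    rw [e1] at h2
    refine (Go.each_cons b (by simp) rfl h1 h2).mono ?_
    have h5 : (b :: l).length * (c + 3) = l.length * (c + 3) + (c + 3) := by
      simp only [List.length_cons]; ring
    rw [h5]
    omega

/-- One round of the computation of the padding. -/
def ebody : Prog := .seq (.ask 8 6) (.take 6 .nop (.clear 7) (.seq (.put 8 true) (.app 3 3 5)))

theorem go_eloop {h : ℕ → ℕ} (hG : MarkOK h G) (i : ℕ) (r : ℕ) : ∀ m : ℕ, m + r = h i →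
    ∃ t, t + 4 * 2 ^ m ≤ (r + 1) * (i + h i + 20) + 4 * 2 ^ (m + r) ∧ Go G (.loop 7 ebody)
      (st [X, W, S, ones (2 ^ m), L, [], [], [true], mark i m, D]) t
      (st [X, W, S, ones (2 ^ h i), L, [], [], [], mark i (h i), D]) := by
  induction r with
  | zero =>
    intro m hm
    obtain rfl : m = h i := by omega
    have g1 : Go G (.ask 8 6) (st [X, W, S, ones (2 ^ h i), L, [], [], [true], mark i (h i), D])
        ((mark i (h i)).length + 1)
        (st [X, W, S, ones (2 ^ h i), L, [], [G (mark i (h i))], [true], mark i (h i), D]) :=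
      Go.ask (by simp)
    rw [hG, length_mark] at g1
    simp only [lt_irrefl, decide_false] at g1
    have g2 : Go G (.clear 7) (st [X, W, S, ones (2 ^ h i), L, [], [], [true], mark i (h i), D])
        (3 * 1 + 1) (st [X, W, S, ones (2 ^ h i), L, [], [], [], mark i (h i), D]) :=
      Go.clear (by simp)
    have g3 : Go G ebody (st [X, W, S, ones (2 ^ h i), L, [], [], [true], mark i (h i), D])
        (i + h i + 3 + 1 + (3 * 1 + 1 + 1))
        (st [X, W, S, ones (2 ^ h i), L, [], [], [], mark i (h i), D]) :=
      g1.seq (Go.take_false (by simp) rfl g2)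
    refine ⟨_, ?_, Go.loop_cons (by simp [st]) g3 (Go.loop_nil rfl)⟩
    simp only [Nat.add_zero, Nat.zero_add, Nat.one_mul]
    omega
  | succ r ih =>
    intro m hm
    have g1 : Go G (.ask 8 6) (st [X, W, S, ones (2 ^ m), L, [], [], [true], mark i m, D])
        ((mark i m).length + 1)
        (st [X, W, S, ones (2 ^ m), L, [], [G (mark i m)], [true], mark i m, D]) :=
      Go.ask (by simp)
    rw [hG, length_mark, decide_eq_true (show m < h i by omega)] at g1
    have g2 : Go G (.put 8 true) (st [X, W, S, ones (2 ^ m), L, [], [], [true], mark i m, D])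
        1 (st [X, W, S, ones (2 ^ m), L, [], [], [true], mark i m ++ [true], D]) :=
      Go.put true (by simp)
    rw [mark_succ] at g2
    have g3 : Go G (.app 3 3 5)
        (st [X, W, S, ones (2 ^ m), L, [], [], [true], mark i (m + 1), D])
        (4 * (ones (2 ^ m)).length + 2)
        (st [X, W, S, ones (2 ^ m) ++ ones (2 ^ m), L, [], [], [true], mark i (m + 1), D]) :=
      Go.app (by simp) (by simp) (by simp)
    rw [ones_add, ← two_mul, ← pow_succ', List.length_replicate] at g3
    have g4 : Go G ebody (st [X, W, S, ones (2 ^ m), L, [], [], [true], mark i m, D])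
        (i + m + 3 + 1 + (1 + (4 * 2 ^ m + 2) + 1))
        (st [X, W, S, ones (2 ^ (m + 1)), L, [], [], [true], mark i (m + 1), D]) :=
      g1.seq (Go.take_true (by simp) rfl (g2.seq g3))
    obtain ⟨t, ht, g5⟩ := ih (m + 1) (by omega)
    refine ⟨_, ?_, Go.loop_cons (by simp [st]) g4 g5⟩
    have e1 : (r + 1 + 1) * (i + h i + 20) = (r + 1) * (i + h i + 20) + (i + h i + 20) := by ring
    rw [e1]
    rw [show m + 1 + r = m + (r + 1) by ring, pow_succ] at ht
    omega

/-- Ask for the code of the program number `j` with space `2 ^ (c * (n + 1) + j)`. -/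
def espH (j c : ℕ) : Prog := .seq (.seq (.copy 0 4) (.seq (.put 4 true)
  (.seq (.each 4 (iter (.put 2 true) c) (iter (.put 2 true) c)) (.seq (iter (.put 2 true) j)
  (.seq (.put 8 true) (.seq (.put 8 false) (.seq (.app 2 8 5) (.seq (.put 8 false)
  (.seq (.put 3 true) (.seq (.put 7 true) (.loop 7 ebody)))))))))))
  (.seq (.put 1 true) (.seq (.put 1 true) (.seq (iter (.put 1 true) j) (.seq (.put 1 false)
  (.seq (.app 3 1 5) (.seq (.put 1 false) (.seq (.app 0 1 5) (.seq (.ask 1 6) (.seq (.clear 0)
  (.take 6 .nop .nop (.put 0 true)))))))))))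

theorem poly_two_pow (H : ℕ) : (H + 1) * (2 * H + 20) ≤ 40 * 2 ^ H := by
  induction H with
  | zero => norm_num
  | succ H ih =>
    rw [pow_succ]
    rcases Nat.lt_or_ge H 3 with h1 | h1
    · interval_cases H <;> norm_num
    · nlinarith

theorem go_espH {h : ℕ → ℕ} (hh : StrictMono h) (hG : MarkOK h G) (j : ℕ) {c : ℕ} (hc : 1 ≤ c)
    (x : List Bool) : ∃ τ : Store,
    Go G (espH j c) (init x) (200 * 2 ^ h (c * (x.length + 1) + j)) τ ∧
    (τ 0 ≠ [] ↔ G (codeH h j (c * (x.length + 1) + j) x) = true) := by
  rw [init_eq10]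
  obtain ⟨i, hi⟩ : ∃ i, c * (x.length + 1) + j = i := ⟨_, rfl⟩
  obtain ⟨H, hH⟩ : ∃ H, h i = H := ⟨_, rfl⟩
  have g1 : Go G (.copy 0 4) (st [x, [], [], [], [], [], [], [], [], []]) (x.length + 1)
      (st [x, [], ones 0, [], x, [], [], [], [], []]) := Go.copy (by simp)
  have g2 : Go G (.put 4 true) (st [x, [], ones 0, [], x, [], [], [], [], []]) 1
      (st [x, [], ones 0, [], x ++ [true], [], [], [], [], []]) := Go.put true (by simp)
  have g3 := go_mulc (G := G) (X := x) (W := []) (F := []) (Q := []) (B := []) (E := [])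
    (V := []) (D := []) c (x ++ [true]) 0
  have hl : (x ++ [true]).length = x.length + 1 := by simp
  rw [hl, Nat.zero_add] at g3
  have g4 := go_put2 (G := G) (X := x) (W := []) (F := []) (L := []) (Q := []) (B := []) (E := [])
    (V := []) (D := []) j (c * (x.length + 1))
  rw [hi] at g4
  have g5 : Go G (.put 8 true) (st [x, [], ones i, [], [], [], [], [], [], []]) 1
      (st [x, [], ones i, [], [], [], [], [], [true], []]) := Go.put true (by simp)
  have g6 : Go G (.put 8 false) (st [x, [], ones i, [], [], [], [], [], [true], []]) 1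
      (st [x, [], ones i, [], [], [], [], [], [true, false], []]) := Go.put false (by simp)
  have g7 : Go G (.app 2 8 5) (st [x, [], ones i, [], [], [], [], [], [true, false], []])
      (4 * (ones i).length + 2)
      (st [x, [], ones i, [], [], [], [], [], [true, false] ++ ones i, []]) :=
    Go.app (by simp) (by simp) (by simp)
  rw [List.length_replicate] at g7
  have g8 : Go G (.put 8 false)
      (st [x, [], ones i, [], [], [], [], [], [true, false] ++ ones i, []]) 1
      (st [x, [], ones i, [], [], [], [], [], [true, false] ++ ones i ++ [false], []]) :=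
    Go.put false (by simp)
  have e0 : [true, false] ++ ones i ++ [false] = mark i 0 := by simp [mark, ones]
  rw [e0] at g8
  have g9 : Go G (.put 3 true) (st [x, [], ones i, [], [], [], [], [], mark i 0, []]) 1
      (st [x, [], ones i, ones (2 ^ 0), [], [], [], [], mark i 0, []]) := Go.put true (by simp)
  have g10 : Go G (.put 7 true) (st [x, [], ones i, ones (2 ^ 0), [], [], [], [], mark i 0, []]) 1
      (st [x, [], ones i, ones (2 ^ 0), [], [], [], [true], mark i 0, []]) :=
    Go.put true (by simp)
  obtain ⟨t, ht, g11⟩ := go_eloop (G := G) (X := x) (W := []) (S := ones i) (L := []) (D := [])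
    hG i (h i) 0 (by omega)
  rw [hH] at ht g11
  obtain ⟨M, hM⟩ : ∃ M, mark i H = M := ⟨_, rfl⟩
  obtain ⟨S, hS⟩ : ∃ S, ones i = S := ⟨_, rfl⟩
  rw [hM] at g11
  have g12 : Go G (.put 1 true) (st [x, [], ones i, ones (2 ^ H), [], [], [], [], M, []]) 1
      (st [x, [true], ones i, ones (2 ^ H), [], [], [], [], M, []]) := Go.put true (by simp)
  have g13 : Go G (.put 1 true) (st [x, [true], ones i, ones (2 ^ H), [], [], [], [], M, []]) 1
      (st [x, [true, true], ones i, ones (2 ^ H), [], [], [], [], M, []]) := Go.put true (by simp)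
  have g14 := go_put1' (G := G) (X := x) (W := [true, true]) (S := ones i) (F := ones (2 ^ H))
    (L := []) (Q := []) (B := []) (E := []) (V := M) (D := []) j
  have g15 : Go G (.put 1 false)
      (st [x, [true, true] ++ ones j, ones i, ones (2 ^ H), [], [], [], [], M, []]) 1
      (st [x, [true, true] ++ ones j ++ [false], ones i, ones (2 ^ H), [], [], [], [], M, []]) :=
    Go.put false (by simp)
  have g16 : Go G (.app 3 1 5)
      (st [x, [true, true] ++ ones j ++ [false], ones i, ones (2 ^ H), [], [], [], [], M, []])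
      (4 * (ones (2 ^ H)).length + 2)
      (st [x, [true, true] ++ ones j ++ [false] ++ ones (2 ^ H), ones i, ones (2 ^ H), [], [], [],
        [], M, []]) := Go.app (by simp) (by simp) (by simp)
  rw [List.length_replicate] at g16
  have g17 : Go G (.put 1 false)
      (st [x, [true, true] ++ ones j ++ [false] ++ ones (2 ^ H), ones i, ones (2 ^ H), [], [], [],
        [], M, []]) 1
      (st [x, [true, true] ++ ones j ++ [false] ++ ones (2 ^ H) ++ [false], ones i, ones (2 ^ H),
        [], [], [], [], M, []]) := Go.put false (by simp)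
  have g18 : Go G (.app 0 1 5)
      (st [x, [true, true] ++ ones j ++ [false] ++ ones (2 ^ H) ++ [false], ones i, ones (2 ^ H),
        [], [], [], [], M, []]) (4 * x.length + 2)
      (st [x, [true, true] ++ ones j ++ [false] ++ ones (2 ^ H) ++ [false] ++ x, ones i,
        ones (2 ^ H), [], [], [], [], M, []]) := Go.app (by simp) (by simp) (by simp)
  obtain ⟨q, hq⟩ : ∃ q, codeH h j i x = q := ⟨_, rfl⟩
  have e1 : [true, true] ++ ones j ++ [false] ++ ones (2 ^ H) ++ [false] ++ x = q := by
    rw [← hq, codeH, hH]; simp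
  have hql : q.length = j + 2 ^ H + x.length + 4 := by rw [← hq, length_codeH, hH]
  rw [e1] at g18
  have g19 : Go G (.ask 1 6) (st [x, q, ones i, ones (2 ^ H), [], [], [], [], M, []])
      (q.length + 1)
      (st [x, q, ones i, ones (2 ^ H), [], [], [G q], [], M, []]) := Go.ask (by simp)
  have g20 : Go G (.clear 0) (st [x, q, ones i, ones (2 ^ H), [], [], [G q], [], M, []])
      (3 * x.length + 1)
      (st [[], q, ones i, ones (2 ^ H), [], [], [G q], [], M, []]) := Go.clear (by simp)
  have g21 : ∃ τ, Go G (.take 6 .nop .nop (.put 0 true))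
      (st [[], q, ones i, ones (2 ^ H), [], [], [G q], [], M, []]) 2 τ ∧
      (τ 0 ≠ [] ↔ G q = true) := by
    cases hG : G q
    · exact ⟨_, Go.take_false (by simp) rfl Go.nop, by simp [st]⟩
    · exact ⟨_, Go.take_true (by simp) rfl (Go.put true (by simp)), by simp [st]⟩
  obtain ⟨τ, g21, h21⟩ := g21
  refine ⟨τ, ((g1.seq (g2.seq (g3.seq (g4.seq (g5.seq (g6.seq (g7.seq (g8.seq (g9.seq
    (g10.seq g11)))))))))).seq (g12.seq (g13.seq (g14.seq (g15.seq (g16.seq (g17.seq (g18.seq
    (g19.seq (g20.seq g21)))))))))).mono ?_, by rw [hi, hq]; exact h21⟩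
  -- the time
  clear g1 g2 g3 g4 g5 g6 g7 g8 g9 g10 g11 g12 g13 g14 g15 g16 g17 g18 g19 g20 g21 h21
  rw [hql, hi, hH]
  have h1 : i ≤ H := by rw [← hH]; exact hh.le_apply
  have h2 := poly_two_pow H
  have h3 : (H + 1) * (i + H + 20) ≤ (H + 1) * (2 * H + 20) := Nat.mul_le_mul_left _ (by omega)
  have h4 : x.length + 1 ≤ c * (x.length + 1) := Nat.le_mul_of_pos_left _ hc
  have h5 : (x.length + 1) * (c + 3) = c * (x.length + 1) + 3 * (x.length + 1) := by ring
  have h6 : H < 2 ^ H := Nat.lt_two_pow_self
  rw [h5]
  rw [pow_zero, Nat.zero_add] at ht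
  obtain ⟨A, hA⟩ : ∃ A, 2 ^ H = A := ⟨_, rfl⟩
  obtain ⟨C, hC⟩ : ∃ C, c * (x.length + 1) = C := ⟨_, rfl⟩
  rw [hA] at h2 h6 ht ⊢
  rw [hC] at h4 hi ⊢
  omega

end

end Pool.Agent.L0h58.SP
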