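import Pool.Agent.L0h34.SD.Prog
import Pool.Agent.L0h58.SP.Progs

/-! # The search for the hidden string in small space -/

set_option autoImplicit false

namespace Pool.Agent.L0h58.SP

open Pool.Agent.L0h34.OM Pool.Agent.L0h34.RO Pool.Agent.L0h58.EE Function

section

variable {G : Oracle} {X W S F L Q B D V E : List Bool}

theorem go_ones8' (l : List Bool) : ∀ V : List Bool,
    Go G (.each 4 (.put 8 true) (.put 8 true)) (st [X, [], [], [], l, [], [], [], V, [], [], [], [], [], [], [], [], [], [], []])
      (3 * l.length + 1) (st [X, [], [], [], [], [], [], [], V ++ ones l.length, [], [], [], [], [], [], [], [], [], [], []]) := by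
  induction l with
  | nil =>
    intro V
    simp only [List.length_nil, ones, List.replicate_zero, List.append_nil, Nat.mul_zero,
      Nat.zero_add]
    exact Go.each_nil rfl
  | cons b l ih =>
    intro V
    have h1 : Go G (.put 8 true) (st [X, [], [], [], l, [], [], [], V, [], [], [], [], [], [], [], [], [], [], []]) 1
      (st [X, [], [], [], l, [], [], [], V ++ [true], [], [], [], [], [], [], [], [], [], [], []]) := Go.put true (by simp)
    have h2 := ih (V ++ [true])
    rw [show V ++ [true] ++ ones l.length = V ++ ones (b :: l).length by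
      simp [ones, List.replicate_succ]] at h2
    exact (Go.each_cons b (by simp) rfl h1 h2).mono (by simp only [List.length_cons]; omega)

/-- One round of the computation of the string of zeros. -/
def zbody : Prog := .seq (.ask 8 6) (.take 6 .nop (.clear 14) (.seq (.put 8 true) (.put 2 false)))

theorem go_zloop {h : ℕ → ℕ} (hG : MarkOK h G) (n : ℕ) (r : ℕ) : ∀ (m : ℕ) (S : List Bool),
    m + r = h n → Go G (.loop 14 zbody)
      (st [X, [], S, [], [], [], [], [], mark n m, [], [], [], [], [], [true], [], [], [], [], []])
      ((r + 1) * (n + h n + 20))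
      (st [X, [], S ++ List.replicate r false, [], [], [], [], [], mark n (h n), [], [], [], [], [], [], [], [], [], [], []]) := by
  induction r with
  | zero =>
    intro m S hm
    obtain rfl : m = h n := by omega
    have g1 : Go G (.ask 8 6) (st [X, [], S, [], [], [], [], [], mark n (h n), [], [], [], [], [], [true], [], [], [], [], []])
        ((mark n (h n)).length + 1)
        (st [X, [], S, [], [], [], [G (mark n (h n))], [], mark n (h n), [], [], [], [], [], [true], [], [], [], [], []]) :=
      Go.ask (by simp)
    rw [hG, length_mark] at g1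
    simp only [lt_irrefl, decide_false] at g1
    have g2 : Go G (.clear 14) (st [X, [], S, [], [], [], [], [], mark n (h n), [], [], [], [], [], [true], [], [], [], [], []])
        (3 * 1 + 1) (st [X, [], S, [], [], [], [], [], mark n (h n), [], [], [], [], [], [], [], [], [], [], []]) :=
      Go.clear (by simp)
    have g3 : Go G zbody (st [X, [], S, [], [], [], [], [], mark n (h n), [], [], [], [], [], [true], [], [], [], [], []])
        (n + h n + 3 + 1 + (3 * 1 + 1 + 1))
        (st [X, [], S, [], [], [], [], [], mark n (h n), [], [], [], [], [], [], [], [], [], [], []]) :=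
      g1.seq (Go.take_false (by simp) rfl g2)
    simp only [List.replicate_zero, List.append_nil, Nat.zero_add]
    exact (Go.loop_cons (by simp [st]) g3 (Go.loop_nil rfl)).mono (by omega)
  | succ r ih =>
    intro m S hm
    have g1 : Go G (.ask 8 6) (st [X, [], S, [], [], [], [], [], mark n m, [], [], [], [], [], [true], [], [], [], [], []])
        ((mark n m).length + 1)
        (st [X, [], S, [], [], [], [G (mark n m)], [], mark n m, [], [], [], [], [], [true], [], [], [], [], []]) :=
      Go.ask (by simp)
    rw [hG, length_mark, decide_eq_true (show m < h n by omega)] at g1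
    have g2 : Go G (.put 8 true) (st [X, [], S, [], [], [], [], [], mark n m, [], [], [], [], [], [true], [], [], [], [], []])
        1 (st [X, [], S, [], [], [], [], [], mark n m ++ [true], [], [], [], [], [], [true], [], [], [], [], []]) :=
      Go.put true (by simp)
    rw [mark_succ] at g2
    have g3 : Go G (.put 2 false) (st [X, [], S, [], [], [], [], [], mark n (m + 1), [], [], [], [], [], [true], [], [], [], [], []]) 1
          (st [X, [], S ++ [false], [], [], [], [], [], mark n (m + 1), [], [], [], [], [], [true], [], [], [], [], []]) :=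
        Go.put false (by simp)
    have g4 : Go G zbody (st [X, [], S, [], [], [], [], [], mark n m, [], [], [], [], [], [true], [], [], [], [], []])
          (n + m + 3 + 1 + (1 + 1 + 1))
          (st [X, [], S ++ [false], [], [], [], [], [], mark n (m + 1), [], [], [], [], [], [true], [], [], [], [], []]) :=
        g1.seq (Go.take_true (by simp) rfl (g2.seq g3))
    have g5 := ih (m + 1) (S ++ [false]) (by omega)
    rw [show S ++ [false] ++ List.replicate r false = S ++ List.replicate (r + 1) false by
      simp [List.replicate_succ]] at g5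
    refine (Go.loop_cons (by simp [st]) g4 g5).mono ?_
    have : (r + 1 + 1) * (n + h n + 20) = (r + 1) * (n + h n + 20) + (n + h n + 20) := by ring
    rw [this]
    omega

/-- One round of the search. -/
def rndH : Prog := .seq (.put 5 false) (.seq (.app 0 5 7) (.seq (.app 2 5 7) (.seq (.put 5 true)
  (.seq (.ask 5 6) (.seq (.clear 5) (.seq (.take 6 .nop .nop (.seq (.clear 17) (.put 17 true)))
  incP))))))

theorem go_rndH (o : Bool) {x s M : List Bool} :
    Go G rndH (st [x, [], s, [], [], [], [], [], M, [], [], [], [], [], [true], [], [], cc o, [], []])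
      (20 * x.length + 20 * s.length + 60)
      (st [x, [], (inc true s).2, [], [], [], [], [], M, [], [], [], [], [], if (inc true s).1 then [] else [true], [], [], cc (o || G (false :: (x ++ (s ++ [true])))), [], []]) := by
  have e1 : [false] ++ x ++ s ++ [true] = false :: (x ++ (s ++ [true])) := by simp
  obtain ⟨q, hq⟩ : ∃ q, false :: (x ++ (s ++ [true])) = q := ⟨_, rfl⟩
  have hql : q.length = x.length + s.length + 2 := by rw [← hq]; simp; omega
  rw [hq] at e1 ⊢
  have g1 : Go G (.put 5 false) (st [x, [], s, [], [], [], [], [], M, [], [], [], [], [], [true], [], [], cc o, [], []])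
      (1)
      (st [x, [], s, [], [], [false], [], [], M, [], [], [], [], [], [true], [], [], cc o, [], []]) := Go.put false (by simp)
  have g2 : Go G (.app 0 5 7) (st [x, [], s, [], [], [false], [], [], M, [], [], [], [], [], [true], [], [], cc o, [], []])
      (4 * x.length + 2)
      (st [x, [], s, [], [], [false] ++ x, [], [], M, [], [], [], [], [], [true], [], [], cc o, [], []]) := Go.app (by simp) (by simp) (by simp)
  have g3 : Go G (.app 2 5 7) (st [x, [], s, [], [], [false] ++ x, [], [], M, [], [], [], [], [], [true], [], [], cc o, [], []])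
      (4 * s.length + 2)
      (st [x, [], s, [], [], [false] ++ x ++ s, [], [], M, [], [], [], [], [], [true], [], [], cc o, [], []]) := Go.app (by simp) (by simp) (by simp)
  have g4 : Go G (.put 5 true) (st [x, [], s, [], [], [false] ++ x ++ s, [], [], M, [], [], [], [], [], [true], [], [], cc o, [], []])
      (1)
      (st [x, [], s, [], [], [false] ++ x ++ s ++ [true], [], [], M, [], [], [], [], [], [true], [], [], cc o, [], []]) := Go.put true (by simp)
  rw [e1] at g4
  have g5 : Go G (.ask 5 6) (st [x, [], s, [], [], q, [], [], M, [], [], [], [], [], [true], [], [], cc o, [], []])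
      (q.length + 1)
      (st [x, [], s, [], [], q, [G q], [], M, [], [], [], [], [], [true], [], [], cc o, [], []]) := Go.ask (by simp)
  have g6 : Go G (.clear 5) (st [x, [], s, [], [], q, [G q], [], M, [], [], [], [], [], [true], [], [], cc o, [], []])
      (3 * q.length + 1)
      (st [x, [], s, [], [], [], [G q], [], M, [], [], [], [], [], [true], [], [], cc o, [], []]) := Go.clear (by simp)
  have g7 : Go G (.take 6 .nop .nop (.seq (.clear 17) (.put 17 true))) (st [x, [], s, [], [], [], [G q], [], M, [], [], [], [], [], [true], [], [], cc o, [], []])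
      (7)
      (st [x, [], s, [], [], [], [], [], M, [], [], [], [], [], [true], [], [], cc (o || G q), [], []]) := by
    cases G q
    · rw [Bool.or_false]
      exact (Go.take_false (by simp) rfl Go.nop).mono (by omega)
    · rw [Bool.or_true]
      have ho := cc_length o
      exact (Go.take_true (T := 3 * (cc o).length + 1 + 1) (by simp) rfl
        ((Go.clear (by simp)).seq (Go.put true (by simp)))).mono (by omega)
  have g8 : Go G incP (st [x, [], s, [], [], [], [], [], M, [], [], [], [], [], [true], [], [], cc (o || G q), [], []])
      (9 * s.length + 10)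
      (st [x, [], (inc true s).2, [], [], [], [], [], M, [], [], [], [], [], if (inc true s).1 then [] else [true], [], [], cc (o || G q), [], []]) := go_incP s
  refine (g1.seq (g2.seq (g3.seq (g4.seq (g5.seq (g6.seq (g7.seq g8))))))).mono ?_
  clear g8 g7 g6 g5 g4 g3 g2 g1
  omega

theorem reach_loopH (x M : List Bool) {H s0 : ℕ} (hx : x.length ≤ H) (hM : M.length ≤ 2 * H + 3)
    (hs0 : 60 * H + 100 ≤ s0) :
    ∃ T, Reach G s0 (.loop 14 rndH)
      (st [x, [], List.replicate H false, [], [], [], [], [], M, [], [], [], [], [], [true], [], [], [], [], []])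
      T
      (st [x, [], zs H (2 ^ H), [], [], [], [], [], M, [], [], [], [], [], [], [], [], cc (orUpto (fun j => G (false :: (x ++ (zs H j ++ [true])))) (2 ^ H)), [], []]) := by
  have hpos : ¬ (2 ^ H ≤ 0) := by have := Nat.pos_of_ne_zero (pow_ne_zero H (two_ne_zero)); omega
  have h := Reach.loop_iter (G := G) (s := s0) (r := 14) (u := rndH)
    (fun i => st [x, [], zs H i, [], [], [], [], [], M, [], [], [], [], [], if 2 ^ H ≤ i then [] else [true], [], [], cc (orUpto (fun j => G (false :: (x ++ (zs H j ++ [true])))) i), [], []])
    (2 ^ H) (40 * H + 60) (by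
      intro i hi
      have hni : ¬ (2 ^ H ≤ i) := by omega
      refine ⟨by simp [st, hni], ?_⟩
      have hb := go_rndH (G := G) (orUpto (fun j => G (false :: (x ++ (zs H j ++ [true])))) i)
        (x := x) (s := zs H i) (M := M)
      rw [inc_zs H i hi, length_zs] at hb
      simp only [hni, if_false, decide_eq_true_eq] at hb ⊢
      refine ((Go.reach (m := 2 * H + 3) hb ?_).mono_space (by omega)).mono (by omega)
      intro y hy
      simp only [List.mem_cons, List.not_mem_nil, or_false] at hy
      have hz := length_zs H i
      rcases hy with rfl | rfl | rfl | rfl | rfl | rfl | rfl | rfl | rfl | rfl | rfl | rfl | rfl |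
        rfl | rfl | rfl | rfl | rfl | rfl | rfl <;>
        first
        | (simp only [List.length_nil]; omega)
        | omega
        | exact (cc_length _).trans (by omega)
        | (simp only [List.length_cons, List.length_nil]; omega)) (by simp [st])
  simp only [hpos, if_false, le_refl, if_true, orUpto, zs_zero] at h
  exact ⟨_, h⟩

/-- The preparation of the search. -/
def preH : Prog := .seq (.put 8 true) (.seq (.put 8 false) (.seq (.copy 0 4)
  (.seq (.each 4 (.put 8 true) (.put 8 true)) (.seq (.put 8 false) (.seq (.put 14 true)
  (.seq (.loop 14 zbody) (.put 14 true)))))))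

/-- The search. -/
def srcH : Prog := .seq preH (.seq (.loop 14 rndH) (.seq (.clear 0) (.copy 17 0)))

theorem go_srcH {h : ℕ → ℕ} (hh : StrictMono h) (hG : MarkOK h G) (x : List Bool) :
    ∃ T τ, Reach G (100 * (h x.length + 1) ^ 2) srcH (init x) T τ ∧
    (τ 0 ≠ [] ↔ ∃ s : List Bool, s.length = h x.length ∧
      G (false :: (x ++ (s ++ [true]))) = true) := by
  rw [init_eq20]
  obtain ⟨n, hn⟩ : ∃ n, x.length = n := ⟨_, rfl⟩
  obtain ⟨H, hH⟩ : ∃ H, h n = H := ⟨_, rfl⟩
  have hnH : n ≤ H := by rw [← hH]; exact hh.le_apply
  rw [hn, hH]
  obtain ⟨s0, hs0⟩ : ∃ s0, 100 * (H + 1) ^ 2 = s0 := ⟨_, rfl⟩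
  have hs1 : (H + 1) * (n + H + 20) + 5 * H + 20 ≤ s0 := by
    have : (H + 1) * (n + H + 20) ≤ (H + 1) * (2 * H + 20) := Nat.mul_le_mul_left _ (by omega)
    rw [← hs0]
    nlinarith
  have hs2 : 60 * H + 100 ≤ s0 := by rw [← hs0]; nlinarith
  rw [hs0]
  have g1 : Go G (.put 8 true) (st [x, [], [], [], [], [], [], [], [], [], [], [], [], [], [], [], [], [], [], []]) 1
      (st [x, [], [], [], [], [], [], [], [true], [], [], [], [], [], [], [], [], [], [], []]) := Go.put true (by simp)
  have g2 : Go G (.put 8 false) (st [x, [], [], [], [], [], [], [], [true], [], [], [], [], [], [], [], [], [], [], []]) 1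
      (st [x, [], [], [], [], [], [], [], [true, false], [], [], [], [], [], [], [], [], [], [], []]) := Go.put false (by simp)
  have g3 : Go G (.copy 0 4) (st [x, [], [], [], [], [], [], [], [true, false], [], [], [], [], [], [], [], [], [], [], []]) (x.length + 1)
      (st [x, [], [], [], x, [], [], [], [true, false], [], [], [], [], [], [], [], [], [], [], []]) := Go.copy (by simp)
  have g4 : Go G (.each 4 (.put 8 true) (.put 8 true)) (st [x, [], [], [], x, [], [], [], [true, false], [], [], [], [], [], [], [], [], [], [], []]) (3 * x.length + 1)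
      (st [x, [], [], [], [], [], [], [], [true, false] ++ ones x.length, [], [], [], [], [], [], [], [], [], [], []]) := go_ones8' x _
  have g5 : Go G (.put 8 false) (st [x, [], [], [], [], [], [], [], [true, false] ++ ones x.length, [], [], [], [], [], [], [], [], [], [], []]) 1
      (st [x, [], [], [], [], [], [], [], [true, false] ++ ones x.length ++ [false], [], [], [], [], [], [], [], [], [], [], []]) := Go.put false (by simp)
  have e0 : [true, false] ++ ones x.length ++ [false] = mark n 0 := by simp [mark, ones, hn]
  rw [e0] at g5
  have g6 : Go G (.put 14 true) (st [x, [], [], [], [], [], [], [], mark n 0, [], [], [], [], [], [], [], [], [], [], []]) 1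
      (st [x, [], [], [], [], [], [], [], mark n 0, [], [], [], [], [], [true], [], [], [], [], []]) := Go.put true (by simp)
  have g7 := go_zloop (G := G) (X := x) hG n (h n) 0 [] (by omega)
  rw [hH, List.nil_append] at g7
  have g8 : Go G (.put 14 true) (st [x, [], List.replicate H false, [], [], [], [], [], mark n H, [], [], [], [], [], [], [], [], [], [], []]) 1
      (st [x, [], List.replicate H false, [], [], [], [], [], mark n H, [], [], [], [], [], [true], [], [], [], [], []]) := Go.put true (by simp)
  have hpre := (Go.reach (m := n) (g1.seq (g2.seq (g3.seq (g4.seq (g5.seq (g6.seq (g7.seq g8)))))))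
    (by
      intro y hy
      simp only [List.mem_cons, List.not_mem_nil, or_false] at hy
      rcases hy with rfl | rfl | rfl | rfl | rfl | rfl | rfl | rfl | rfl | rfl | rfl | rfl | rfl |
          rfl | rfl | rfl | rfl | rfl | rfl | rfl <;>
        first
        | exact hn.le
        | simp)).mono_space (s' := s0) (by
    rw [hn]
    obtain ⟨Z, hZ⟩ : ∃ Z, (H + 1) * (n + H + 20) = Z := ⟨_, rfl⟩
    rw [hZ] at hs1 ⊢
    omega)
  obtain ⟨T, hl⟩ := reach_loopH (G := G) x (mark n H) (H := H) (s0 := s0) (by omega)
    (by rw [length_mark]; omega) hs2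
  obtain ⟨o, ho⟩ : ∃ o, orUpto (fun j => G (false :: (x ++ (zs H j ++ [true])))) (2 ^ H) = o :=
    ⟨_, rfl⟩
  rw [ho] at hl
  have k1 : Go G (.clear 0) (st [x, [], zs H (2 ^ H), [], [], [], [], [], mark n H, [], [], [], [], [], [], [], [], cc o, [], []])
      (3 * x.length + 1)
      (st [[], [], zs H (2 ^ H), [], [], [], [], [], mark n H, [], [], [], [], [], [], [], [], cc o, [], []]) := Go.clear (by simp)
  have k2 : Go G (.copy 17 0) (st [[], [], zs H (2 ^ H), [], [], [], [], [], mark n H, [], [], [], [], [], [], [], [], cc o, [], []])
      ((cc o).length + 1)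
      (st [cc o, [], zs H (2 ^ H), [], [], [], [], [], mark n H, [], [], [], [], [], [], [], [], cc o, [], []]) := Go.copy (by simp)
  have hpost := (Go.reach (m := 2 * H + 3) (k1.seq k2) (by
    intro y hy
    simp only [List.mem_cons, List.not_mem_nil, or_false] at hy
    have hz := length_zs H (2 ^ H)
    have hm := length_mark n H
    rcases hy with rfl | rfl | rfl | rfl | rfl | rfl | rfl | rfl | rfl | rfl | rfl | rfl | rfl |
        rfl | rfl | rfl | rfl | rfl | rfl | rfl <;>
      first
      | (simp only [List.length_nil]; omega)
      | omega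
      | exact (cc_length _).trans (by omega)
      | (simp only [List.length_cons, List.length_nil]; omega))).mono_space
    (s' := s0) (by
    have := cc_length o
    omega)
  refine ⟨_, _, hpre.seq (hl.seq hpost), ?_⟩
  have hcand : ∀ s : List Bool, s.length = H → ∃ i < 2 ^ H, zs H i = s := by
    intro s hs
    have hsurj := Finset.surj_on_of_inj_on_of_card_le (s := Finset.range (2 ^ H))
      (t := strs H) (fun i _ => zs H i) (fun i _ => mem_strs (length_zs H i))
      (fun i j hi hj h => zs_inj (Finset.mem_range.1 hi) (Finset.mem_range.1 hj) h)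
      (by rw [Finset.card_range]; exact card_strs _) s (mem_strs hs)
    obtain ⟨i, hi, h⟩ := hsurj
    exact ⟨i, Finset.mem_range.1 hi, h.symm⟩
  have e1 : (st [cc o, [], zs H (2 ^ H), [], [], [], [], [], mark n H, [], [], [], [], [], [], [], [], cc o, [], []]) 0 = cc o := rfl
  rw [e1]
  have e2 : cc o ≠ [] ↔ o = true := by cases o <;> simp [cc]
  rw [e2, ← ho, orUpto_iff]
  constructor
  · rintro ⟨i, _, h⟩
    exact ⟨zs H i, length_zs _ _, h⟩
  · rintro ⟨s, hs, h⟩
    obtain ⟨i, hi, rfl⟩ := hcand s hs
    exact ⟨i, hi, h⟩

end

end Pool.Agent.L0h58.SP
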