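import Pool.Agent.L0h34.RO.Verify
import Pool.Agent.L0h58.EE.Orc

/-! # The oracle with a given growth of the cost of space -/

set_option autoImplicit false

namespace Pool.Agent.L0h58.SP

open Pool.Agent.L0h34.OM Pool.Agent.L0h34.RO Pool.Agent.L0h58.EE Function MeasureTheory

/-- The string that asks about the program number `j` on the input `x` with space `2 ^ i`. -/
def codeH (h : ℕ → ℕ) (j i : ℕ) (x : List Bool) : List Bool :=
  true :: true :: (ones j ++ false :: (ones (2 ^ h i) ++ false :: x))

/-- The string that asks whether `m < h n`. -/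
def mark (n m : ℕ) : List Bool := true :: false :: (ones n ++ false :: ones m)

theorem length_codeH (h : ℕ → ℕ) (j i : ℕ) (x : List Bool) :
    (codeH h j i x).length = j + 2 ^ h i + x.length + 4 := by
  simp [codeH]; omega

theorem codeH_inj {h : ℕ → ℕ} (hh : StrictMono h) {j i j' i' : ℕ} {x x' : List Bool}
    (e : codeH h j i x = codeH h j' i' x') : j = j' ∧ i = i' ∧ x = x' := by
  unfold codeH at e
  rw [List.cons.injEq, List.cons.injEq] at e
  obtain ⟨h1, h2⟩ := replicate_append_inj e.2.2
  obtain ⟨h3, h4⟩ := replicate_append_inj h2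
  exact ⟨h1, hh.injective (Nat.pow_right_injective le_rfl h3), h4⟩

theorem mark_inj {n m n' m' : ℕ} (e : mark n m = mark n' m') : n = n' ∧ m = m' := by
  unfold mark at e
  rw [List.cons.injEq, List.cons.injEq] at e
  obtain ⟨h1, h2⟩ := replicate_append_inj e.2.2
  refine ⟨h1, ?_⟩
  have := congrArg List.length h2
  simpa using this

/-- The hidden string of `x` (its length is `h |x| + 1`). -/
def ansH (h : ℕ → ℕ) (R : Oracle) (x : List Bool) : List Bool := rd R [] x (h x.length + 1)

/-- The hidden bit of `x`: the last bit of the hidden string. -/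
def hbH (h : ℕ → ℕ) (R : Oracle) (x : List Bool) : Bool := R (adr [] (h x.length) x)

open Classical in
/-- One step of the definition of the oracle. -/
noncomputable def baseH (h : ℕ → ℕ) (R B : Oracle) : Oracle
  | [] => false
  | false :: w => decide (∃ x, w = x ++ ansH h R x)
  | true :: w => decide ((∃ n m, true :: w = mark n m ∧ m < h n) ∨
      ∃ j i x, true :: w = codeH h j i x ∧ j ≤ i ∧ x.length ≤ i ∧ AccS B (2 ^ i) (en j) x)

theorem length_ansH (h : ℕ → ℕ) (R : Oracle) (x : List Bool) :
    (ansH h R x).length = h x.length + 1 := length_rd _ _ _ _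

theorem baseH_congr {h : ℕ → ℕ} (hh : StrictMono h) {R R' B B' : Oracle} {q : List Bool}
    (hq : ∀ q' : List Bool, q'.length < q.length → B' q' = B q')
    (hR : ∀ x : List Bool, x.length + h x.length + 2 ≤ q.length → ansH h R' x = ansH h R x) :
    baseH h R' B' q = baseH h R B q := by
  match q, hq, hR with
  | [], _, _ => rfl
  | false :: w, _, hR =>
    refine decide_eq_decide.2 (exists_congr fun x => ?_)
    by_cases hx : x.length + h x.length + 2 ≤ (false :: w).length
    · rw [hR x hx]
    · constructor
      · intro hw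
        exfalso
        apply hx
        rw [hw]
        simp only [List.length_cons, List.length_append, length_ansH]
        omega
      · intro hw
        exfalso
        apply hx
        rw [hw]
        simp only [List.length_cons, List.length_append, length_ansH]
        omega
  | true :: w, hq, _ =>
    refine decide_eq_decide.2 (or_congr_right ?_)
    refine exists_congr fun j => exists_congr fun i => exists_congr fun x =>
      and_congr_right fun hw => and_congr_right fun _ => and_congr_right fun _ => ?_
    refine AccS_congr fun q' hq' => hq q' ?_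
    rw [hw, length_codeH]
    have : 2 ^ i ≤ 2 ^ h i := Nat.pow_le_pow_right (by norm_num) (hh.le_apply)
    omega

/-- The oracle for the data `R`. -/
noncomputable def orcH (h : ℕ → ℕ) (R : Oracle) (q : List Bool) : Bool :=
  baseH h R (fun q' => if _h : q'.length < q.length then orcH h R q' else false) q
termination_by q.length

section

variable {h : ℕ → ℕ} (hh : StrictMono h)

include hh

theorem orcH_eq (R : Oracle) (q : List Bool) : orcH h R q = baseH h R (orcH h R) q := by
  rw [orcH]
  refine baseH_congr hh (fun q' hq' => ?_) fun _ _ => rfl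
  simp [hq']

theorem orcH_false (R : Oracle) (w : List Bool) :
    orcH h R (false :: w) = true ↔ ∃ x, w = x ++ ansH h R x := by
  rw [orcH_eq hh]; simp [baseH]

theorem orcH_mark (R : Oracle) (n m : ℕ) : orcH h R (mark n m) = true ↔ m < h n := by
  rw [orcH_eq hh, mark]
  simp only [baseH, decide_eq_true_eq]
  constructor
  · rintro (⟨n', m', h1, h2⟩ | ⟨j, i, x, h1, _⟩)
    · obtain ⟨rfl, rfl⟩ := mark_inj (n := n) (m := m) h1
      exact h2
    · simp [codeH] at h1
  · intro h1
    exact Or.inl ⟨n, m, rfl, h1⟩

theorem orcH_code (R : Oracle) {j i : ℕ} {x : List Bool} (hj : j ≤ i) (hx : x.length ≤ i) :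
    orcH h R (codeH h j i x) = true ↔ AccS (orcH h R) (2 ^ i) (en j) x := by
  rw [orcH_eq hh, codeH]
  simp only [baseH, decide_eq_true_eq]
  constructor
  · rintro (⟨n', m', h1, _⟩ | ⟨j', i', x', h1, _, _, h2⟩)
    · simp [mark] at h1
    · obtain ⟨rfl, rfl, rfl⟩ := codeH_inj hh (j := j) (i := i) (x := x) h1
      exact h2
  · intro h1
    exact Or.inr ⟨j, i, x, rfl, hj, hx, h1⟩

omit hh in
theorem ansH_eq (R : Oracle) (x : List Bool) :
    ansH h R x = rd R [] x (h x.length) ++ [hbH h R x] := by
  unfold ansH rd hbH
  rw [List.range_succ, List.map_append]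
  rfl

/-! ### Locality -/

omit hh in
theorem ansH_local {n : ℕ} {R R' : Oracle} (hA : Agree n R R') {x : List Bool}
    (hx : x.length + h x.length + 1 ≤ n) : ansH h R' x = ansH h R x := by
  refine rd_congr fun t ht => hA _ ?_
  rw [length_adr, List.length_nil]
  omega

omit hh in
theorem hbH_local {n : ℕ} {R R' : Oracle} (hA : Agree n R R') {x : List Bool}
    (hx : x.length + h x.length + 1 ≤ n) : hbH h R' x = hbH h R x := by
  refine hA _ ?_
  rw [length_adr, List.length_nil]
  omega

theorem orcH_local {n : ℕ} {R R' : Oracle} (hA : Agree n R R') :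
    Agree n (orcH h R) (orcH h R') := by
  intro q hq
  obtain ⟨m, hm⟩ : ∃ m, q.length = m := ⟨_, rfl⟩
  induction m using Nat.strong_induction_on generalizing q with
  | _ m ih =>
    rw [orcH_eq hh, orcH_eq hh]
    exact baseH_congr hh (fun q' hq' => ih q'.length (by omega) q' (by omega) rfl)
      fun x hx => ansH_local hA (by omega)

end

/-! ### The potential codes -/

/-- The codes of length at most `2 ^ h m`. -/
def CH (h : ℕ → ℕ) (m : ℕ) : Finset (List Bool) :=
  (Finset.range m).biUnion fun i =>
    ((Finset.range (i + 1)) ×ˢ strsLe i).image fun p => codeH h p.1 i p.2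

theorem mem_CH {h : ℕ → ℕ} (hh : StrictMono h) {m j i : ℕ} {x : List Bool} (hj : j ≤ i)
    (hx : x.length ≤ i) (hl : (codeH h j i x).length ≤ 2 ^ h m) : codeH h j i x ∈ CH h m := by
  rw [length_codeH] at hl
  have h1 : i < m := by
    have h2 : 2 ^ h i < 2 ^ h m := by omega
    exact hh.lt_iff_lt.1 ((Nat.pow_lt_pow_iff_right (by norm_num)).1 h2)
  refine Finset.mem_biUnion.2 ⟨i, Finset.mem_range.2 h1, Finset.mem_image.2 ⟨(j, x),
    Finset.mem_product.2 ⟨Finset.mem_range.2 (by simp only; omega), mem_strsLe hx⟩, rfl⟩⟩

theorem card_CH (h : ℕ → ℕ) (m : ℕ) : (CH h m).card ≤ 2 * m * 2 ^ m := by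
  unfold CH
  have h1 : ∀ i ∈ Finset.range m,
      (((Finset.range (i + 1)) ×ˢ strsLe i).image fun p => codeH h p.1 i p.2).card ≤
      m * 2 ^ (i + 1) := by
    intro i hi
    rw [Finset.mem_range] at hi
    refine Finset.card_image_le.trans ?_
    rw [Finset.card_product, Finset.card_range]
    exact Nat.mul_le_mul (by omega) (card_strsLe i)
  refine Finset.card_biUnion_le.trans ((Finset.sum_le_sum h1).trans ?_)
  rw [← Finset.mul_sum]
  have h2 : ∀ k : ℕ, ∑ i ∈ Finset.range k, 2 ^ (i + 1) + 2 = 2 ^ (k + 1) := by
    intro k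
    induction k with
    | zero => rfl
    | succ k ih => rw [Finset.sum_range_succ, pow_succ 2 (k + 1), ← ih]; ring
  have h3 := h2 m
  have h4 : ∑ i ∈ Finset.range m, 2 ^ (i + 1) ≤ 2 * 2 ^ m := by
    rw [pow_succ] at h3
    omega
  calc m * ∑ i ∈ Finset.range m, 2 ^ (i + 1) ≤ m * (2 * 2 ^ m) :=
        Nat.mul_le_mul_left _ h4
    _ = 2 * m * 2 ^ m := by ring

open Classical in
/-- The oracle, if the answers for the codes are given by the set `v`. -/
noncomputable def gvH (h : ℕ → ℕ) (v : Finset (List Bool)) (R : Oracle) : Oracle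
  | [] => false
  | false :: w => decide (∃ x, w = x ++ ansH h R x)
  | true :: w => decide ((∃ n m, true :: w = mark n m ∧ m < h n) ∨ true :: w ∈ v)

/-- The codes with the answer `true`. -/
noncomputable def vwH (h : ℕ → ℕ) (R : Oracle) (m : ℕ) : Finset (List Bool) :=
  (CH h m).filter fun q => orcH h R q = true

theorem gvH_true (h : ℕ → ℕ) (v : Finset (List Bool)) (R : Oracle) (w : List Bool) :
    gvH h v R (true :: w) = true ↔
      (∃ n m, true :: w = mark n m ∧ m < h n) ∨ true :: w ∈ v := by
  simp only [gvH, decide_eq_true_eq]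

theorem gvH_vwH {h : ℕ → ℕ} (hh : StrictMono h) {R : Oracle} {m : ℕ} {q : List Bool}
    (hq : q.length ≤ 2 ^ h m) : gvH h (vwH h R m) R q = orcH h R q := by
  match q, hq with
  | [], _ => rw [orcH_eq hh]; rfl
  | false :: w, _ => rw [orcH_eq hh]; rfl
  | true :: w, hq =>
    rw [Bool.eq_iff_iff, gvH_true]
    unfold vwH
    rw [Finset.mem_filter]
    constructor
    · rintro (h1 | h1)
      · rw [orcH_eq hh]
        simp only [baseH, decide_eq_true_eq]
        exact Or.inl h1
      · exact h1.2
    · intro h0
      have h1 := h0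
      rw [orcH_eq hh] at h0
      simp only [baseH, decide_eq_true_eq] at h0
      rcases h0 with h0 | ⟨j, i, x, h2, h3, h4, _⟩
      · exact Or.inl h0
      · right
        refine ⟨?_, h1⟩
        rw [h2] at hq ⊢
        exact mem_CH hh h3 h4 hq

/-! ### Translations -/

/-- The tables: the hidden strings for the strings of length `n`. -/
abbrev TabH (h : ℕ → ℕ) (n : ℕ) : Type := List.Vector Bool n → (Fin (h n) → Bool) × Bool

/-- The addresses where the data are changed. -/
def DH {h : ℕ → ℕ} {n : ℕ} (k : TabH h n) : Oracle := fun q =>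
  if e : (unary q).2.length = n then
    if hj : (unary q).1 < h n then (k ⟨(unary q).2, e⟩).1 ⟨(unary q).1, hj⟩
    else if (unary q).1 = h n then (k ⟨(unary q).2, e⟩).2 else false
  else false

theorem DH_lt {h : ℕ → ℕ} {n : ℕ} (k : TabH h n) (x : List.Vector Bool n) {j : ℕ} (hj : j < h n) :
    DH k (adr [] j x.1) = (k x).1 ⟨j, hj⟩ := by
  unfold DH
  simp only [unary_adr]
  rw [dif_pos x.2, dif_pos hj]
  rfl

theorem DH_eq {h : ℕ → ℕ} {n : ℕ} (k : TabH h n) (x : List.Vector Bool n) :
    DH k (adr [] (h n) x.1) = (k x).2 := by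
  unfold DH
  simp only [unary_adr]
  rw [dif_pos x.2, dif_neg (lt_irrefl _), if_pos trivial]
  rfl

theorem DH_ne {h : ℕ → ℕ} {n : ℕ} (k : TabH h n) {x : List Bool} (hx : x.length ≠ n) (j : ℕ) :
    DH k (adr [] j x) = false := by
  unfold DH
  simp only [unary_adr]
  rw [dif_neg hx]

theorem ansH_xr_ne {h : ℕ → ℕ} {n : ℕ} (k : TabH h n) (R : Oracle) {x : List Bool}
    (hx : x.length ≠ n) : ansH h (xr (DH k) R) x = ansH h R x := by
  refine rd_congr fun t _ => ?_
  rw [xr, DH_ne k hx, Bool.false_xor]

theorem hbH_xr {h : ℕ → ℕ} {n : ℕ} (k : TabH h n) (R : Oracle) (x : List.Vector Bool n) :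
    hbH h (xr (DH k) R) x.1 = xor (k x).2 (hbH h R x.1) := by
  unfold hbH
  rw [x.2, xr, DH_eq]

/-- The entry of the table for which the hidden string becomes `z`. -/
def tgH (h : ℕ → ℕ) {n : ℕ} (R : Oracle) (x z : List Bool) : (Fin (h n) → Bool) × Bool :=
  (fun j => xor (z.getD j false) (R (adr [] j x)), xor (z.getD (h n) false) (R (adr [] (h n) x)))

theorem ansH_xr_eq {h : ℕ → ℕ} {n : ℕ} (k : TabH h n) (R : Oracle) (x : List.Vector Bool n)
    {z : List Bool} (hz : z.length = h n + 1) :
    ansH h (xr (DH k) R) x.1 = z ↔ k x = tgH h R x.1 z := by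
  have hxl : x.1.length = n := x.2
  have h1 : ansH h (xr (DH k) R) x.1 = z ↔
      ∀ j < h n + 1, xr (DH k) R (adr [] j x.1) = z.getD j false := by
    constructor
    · intro e j hj
      rw [← e, ansH, rd, List.getD_eq_getElem _ _ (by simp [hxl]; omega)]
      simp
    · intro e
      refine List.ext_getElem (by rw [length_ansH, hxl, hz]) fun j h2 h3 => ?_
      have h4 := e j (by omega)
      rw [List.getD_eq_getElem _ _ h3] at h4
      rw [← h4]
      simp [ansH, rd]
  rw [h1]
  constructor
  · intro e
    refine Prod.ext ?_ ?_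
    · funext j
      have h2 := e j.1 (by have := j.2; omega)
      rw [xr, DH_lt k x j.2] at h2
      simp only [tgH]
      rw [← h2, Bool.xor_assoc, Bool.xor_self, Bool.xor_false]
    · have h2 := e (h n) (by omega)
      rw [xr, DH_eq] at h2
      simp only [tgH]
      rw [← h2, Bool.xor_assoc, Bool.xor_self, Bool.xor_false]
  · intro e j hj
    rcases Nat.lt_or_ge j (h n) with h2 | h2
    · rw [xr, DH_lt k x h2, e]
      simp [tgH]
    · obtain rfl : j = h n := by omega
      rw [xr, DH_eq, e]
      simp [tgH]

theorem qp_gvH {h : ℕ → ℕ} (hh : StrictMono h) {n : ℕ} (v : Finset (List Bool)) (R : Oracle) :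
    QP fun k : TabH h n => gvH h v (xr (DH k) R) := by
  intro q
  match q with
  | [] => exact Or.inr ⟨false, fun _ => rfl⟩
  | true :: w => exact Or.inr ⟨_, fun _ => rfl⟩
  | false :: w =>
    have hinj : ∀ a : ℕ, a + h a + 1 = n + h n + 1 → a = n := by
      intro a ha
      rcases lt_trichotomy a n with h1 | h1 | h1
      · have := hh h1; omega
      · exact h1
      · have := hh h1; omega
    by_cases hw : w.length = n + h n + 1
    · left
      refine ⟨⟨w.take n, by rw [List.length_take]; omega⟩, tgH h R (w.take n) (w.drop n),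
        fun k => ?_⟩
      refine decide_eq_decide.2 ?_
      rw [← ansH_xr_eq k R ⟨w.take n, _⟩ (by rw [List.length_drop]; omega)]
      constructor
      · rintro ⟨x, hx⟩
        have hxl : x.length = n := by
          have := congrArg List.length hx
          rw [List.length_append, length_ansH] at this
          exact hinj _ (by omega)
        have h1 : w.take n = x := by rw [hx]; exact List.take_left' hxl
        have h2 : w.drop n = ansH h (xr (DH k) R) x := by
          conv_lhs => rw [hx]
          exact List.drop_left' hxl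
        simp only
        rw [h1, h2]
      · intro e
        simp only at e
        exact ⟨w.take n, by rw [e, List.take_append_drop]⟩
    · right
      classical
      refine ⟨decide (∃ x, w = x ++ ansH h R x), fun k => ?_⟩
      refine decide_eq_decide.2 (exists_congr fun x => ?_)
      by_cases hx : x.length = n
      · constructor
        · intro e
          exfalso
          apply hw
          rw [e, List.length_append, length_ansH, hx]
          omega
        · intro e
          exfalso
          apply hw
          rw [e, List.length_append, length_ansH, hx]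
          omega
      · rw [ansH_xr_ne k R hx]

end Pool.Agent.L0h58.SP
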